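import Pool.Agent.Helper27_Sob.FinalDefs
import Pool.Agent.Helper27_Sob.Main

/-!
MP_60fe1d_an, Q1: in dimension `n = 5`, at the critical exponent `p = 2 = [n/2]`, there is a
homeomorphism `f` of `ℝ⁵` onto itself, of class `W^{1,2}` on a ball, whose (weak) Jacobian is
positive on a set of positive measure and negative on another set of positive measure, and which
is not approximable by diffeomorphisms in `W^{1,2}` of the ball.
-/

set_option autoImplicit false

open Set Metric MeasureTheory Filter Topology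
open scoped ENNReal

namespace Pool.Agent.Results.MP_60fe1d_an.CriticalExponent

open Pool.Agent.SobHomeo

/-- The old and the new form of the Sobolev condition. -/
theorem memW_of_old {n : ℕ} {p : ℝ≥0∞} {Ω : Set (Rn n)} {f : Rn n → Rn n} {g : Rn n → Lin n}
    (h : Helper27Sob.MemW p Ω f g) : MemW p Ω f g :=
  ⟨h.f_mem, h.g_mem, fun φ hφ v => h.weak φ hφ.1 hφ.2.1 hφ.2.2 v⟩

/-- The converse. -/
theorem old_of_memW {n : ℕ} {p : ℝ≥0∞} {Ω : Set (Rn n)} {f : Rn n → Rn n} {g : Rn n → Lin n}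
    (h : MemW p Ω f g) : Helper27Sob.MemW p Ω f g :=
  ⟨h.1, h.2.1, fun φ h1 h2 h3 v => h.2.2 φ ⟨h1, h2, h3⟩ v⟩

/-- Approximability in the new sense implies approximability in the old sense. -/
theorem old_of_approx {n : ℕ} {p : ℝ≥0∞} {Ω : Set (Rn n)} {f : Rn n → Rn n}
    (h : ApproxByDiffeo p Ω f) : Helper27Sob.ApproxByDiffeo p Ω f := by
  obtain ⟨g, hg, F, hF, hlim⟩ := h
  refine ⟨g, old_of_memW hg, F, fun k => ⟨(hF k).1, (hF k).2.1, (hF k).2.2⟩, ?_, ?_⟩
  · exact tendsto_of_tendsto_of_tendsto_of_le_of_le tendsto_const_nhds hlim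
      (fun _ => zero_le) (fun _ => le_self_add)
  · exact tendsto_of_tendsto_of_tendsto_of_le_of_le tendsto_const_nhds hlim
      (fun _ => zero_le) (fun _ => le_add_self)

/-- There is a homeomorphism `f` of `ℝ⁵` which on some ball `Ω` is a Sobolev homeomorphism of
class `W^{1,2}` (`2 = [5/2]`), whose Jacobian `det g` (with `g` the weak derivative of `f`) is
positive on a part of `Ω` of positive measure and negative on another one, and which is not
approximable by diffeomorphisms in `W^{1,2}(Ω)`. -/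
theorem result : ∃ (f : Rn 5 ≃ₜ Rn 5) (g : Rn 5 → Lin 5) (Ω : Set (Rn 5)),
    (∃ r : ℝ, Ω = ball 0 r) ∧ IsSobolevHomeo 2 Ω f ∧ MemW 2 Ω f g ∧ ChangesSign Ω g ∧
      ¬ ApproxByDiffeo 2 Ω f := by
  obtain ⟨f, g, r, A, B, h1, h2, hA, hB, -, -, hA0, hB0, hAd, hBd, h3⟩ := Helper27Sob.main
  refine ⟨f, g, ball 0 r, ⟨r, rfl⟩, ⟨⟨g, memW_of_old h1⟩, h2.2⟩, memW_of_old h1,
    ⟨lt_of_lt_of_le hA0 (measure_mono fun x hx => ⟨hA hx, hAd x hx⟩),
    lt_of_lt_of_le hB0 (measure_mono fun x hx => ⟨hB hx, hBd x hx⟩)⟩,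
    fun h => h3 (old_of_approx h)⟩

end Pool.Agent.Results.MP_60fe1d_an.CriticalExponent
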